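import Pool.Agent.H12.UCR.Stmts

/-!
# MP_e822af, board `ucr`: row BDD
-/

set_option autoImplicit false

open MeasureTheory Filter Topology

namespace Pool.UCR

/-- the averages depend continuously on the measure -/
theorem bdd_av (h : CTFS) (p q k N : ℕ) : Continuous (fun μ : PP p => Av q k N (fc μ)) := by
  unfold Av
  exact continuous_const.mul (continuous_finsetSum _ fun n _ => h p (k * q ^ n))

/-- the neighbourhoods are open -/
theorem bdd_near (h : CTFS) (p m : ℕ) (η : ℝ) (c : ℕ → ℂ) :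
    IsOpen {μ : PP p | Near m η (fc μ) c} := by
  have h1 : {μ : PP p | Near m η (fc μ) c} =
      ⋂ j ∈ Finset.range (m + 1), {μ : PP p | ‖fc μ j - c j‖ < η} := by
    ext μ
    simp only [Set.mem_ofPred_eq, Near, Set.mem_iInter, Finset.mem_range]
    constructor
    · intro H j hj
      exact H j (by omega)
    · intro H j hj
      exact H j (by omega)
  rw [h1]
  refine isOpen_biInter_finset ?_
  intro j _
  exact isOpen_lt ((h p j).sub continuous_const).norm continuous_const

theorem bdd_thm (hCPT : CPTS) (hCTF : CTFS) (hNBH : NBHS) (hORB : ORBS) (hDNS : DNSS) : BDDS := by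
  intro p q hp hq hC
  unfold Crit at hC
  push Not at hC
  obtain ⟨k, hk, ε, hε, L0, hL0, a0, m0, η0, hη0, hneg⟩ := hC
  have : BaireSpace (PP p) := (hCPT p).2.2
  set V : Set (PP p) := {μ : PP p | Near m0 η0 (fc μ) (S p L0 a0)} with hVdef
  have hVo : IsOpen V := bdd_near hCTF p m0 η0 _
  have hVn : V.Nonempty := by
    obtain ⟨μ, hμ⟩ := hORB p L0 a0 hp hL0
    refine ⟨μ, ?_⟩
    intro j _
    rw [hμ j, sub_self, norm_zero]
    exact hη0
  set U : ℕ → Set (PP p) := fun M => {μ : PP p | ∃ N : ℕ, M ≤ N ∧ ε < ‖Av q k N (fc μ)‖} with hUdef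
  have hUo : ∀ M, IsOpen (U M) := by
    intro M
    have h1 : U M = ⋃ N : ℕ, ⋃ _ : M ≤ N, {μ : PP p | ε < ‖Av q k N (fc μ)‖} := by
      ext μ
      simp only [hUdef, Set.mem_ofPred_eq, Set.mem_iUnion, exists_prop]
    rw [h1]
    refine isOpen_iUnion fun N => isOpen_iUnion fun _ => ?_
    exact isOpen_lt continuous_const (bdd_av hCTF p q k N).norm
  -- every nonempty open subset of `V` meets `U M`
  have key : ∀ M : ℕ, ∀ W : Set (PP p), IsOpen W → W.Nonempty → W ⊆ V → (W ∩ U M).Nonempty := by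
    intro M W hWo hWn hWV
    obtain ⟨L1, a1, hL1, μ1, hμ1, hf1⟩ := hDNS p hp W hWo hWn
    have hn1 : Near m0 η0 (S p L1 a1) (S p L0 a0) := by
      intro j hj
      have h2 := hWV hμ1
      have h3 := h2 j hj
      rw [hf1 j] at h3
      exact h3
    obtain ⟨m, η, hη, hm⟩ := hNBH p μ1 W hWo hμ1
    obtain ⟨L, hL, a, hnear, N, hN, hav⟩ := hneg L1 hL1 a1 hn1 m η hη M
    obtain ⟨μ2, hμ2⟩ := hORB p L a hp hL
    have hfun2 : fc μ2 = S p L a := funext hμ2
    have hfun1 : fc μ1 = S p L1 a1 := funext hf1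
    refine ⟨μ2, hm μ2 ?_, N, hN, ?_⟩
    · rw [hfun2, hfun1]
      exact hnear
    · rw [hfun2]
      exact hav
  refine ⟨V, hVo, hVn, k, hk, ε, hε, ⋂ M : ℕ, (U M ∪ (closure V)ᶜ), ?_, ?_, ?_⟩
  · exact IsGδ.iInter_of_isOpen fun M => (hUo M).union isClosed_closure.isOpen_compl
  · refine dense_iInter_of_isOpen (fun M => (hUo M).union isClosed_closure.isOpen_compl) ?_
    intro M
    rw [dense_iff_inter_open]
    intro W hWo hWn
    by_cases hW : (W ∩ V).Nonempty
    · obtain ⟨x, hx1, hx2⟩ := key M (W ∩ V) (hWo.inter hVo) hW Set.inter_subset_right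
      exact ⟨x, hx1.1, Or.inl hx2⟩
    · obtain ⟨x, hx⟩ := hWn
      refine ⟨x, hx, Or.inr ?_⟩
      intro hxc
      rw [mem_closure_iff] at hxc
      exact hW (hxc W hWo hx)
  · intro μ hμ hμV M
    have h1 := Set.mem_iInter.mp hμ M
    rcases h1 with h1 | h1
    · exact h1
    · exact absurd (subset_closure hμV) h1

end Pool.UCR
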